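import Mathlib

/-!
A finite two-player game whose preference graph is strongly connected but has no 4-cycle.
-/

namespace Pool.Agent.Results.MP_69f1cd_co.NoFourCycle

/-- A two-player game with strategy sets `S` and `T`. -/
structure Game (S T : Type) where
  /-- payoff of the first player -/
  u1 : S → T → ℝ
  /-- payoff of the second player -/
  u2 : S → T → ℝ

/-- The arcs of the preference graph: the two profiles differ in the strategy of exactly one
player, and this player strictly prefers the second profile. -/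
def Arc {S T : Type} (g : Game S T) (p q : S × T) : Prop :=
  (p.1 ≠ q.1 ∧ p.2 = q.2 ∧ g.u1 p.1 p.2 < g.u1 q.1 q.2) ∨
  (p.1 = q.1 ∧ p.2 ≠ q.2 ∧ g.u2 p.1 p.2 < g.u2 q.1 q.2)

/-- The game is strict: no player is ever indifferent between two different own strategies. -/
def Strict {S T : Type} (g : Game S T) : Prop :=
  (∀ s s' t, s ≠ s' → g.u1 s t ≠ g.u1 s' t) ∧ (∀ s t t', t ≠ t' → g.u2 s t ≠ g.u2 s t')

/-- The preference graph is strongly connected. -/
def StronglyConnected {S T : Type} (g : Game S T) : Prop :=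
  ∀ p q : S × T, Relation.ReflTransGen (Arc g) p q

/-- The preference graph has a directed cycle through four distinct vertices. -/
def HasFourCycle {S T : Type} (g : Game S T) : Prop :=
  ∃ a b c d : S × T, a ≠ b ∧ a ≠ c ∧ a ≠ d ∧ b ≠ c ∧ b ≠ d ∧ c ≠ d ∧
    Arc g a b ∧ Arc g b c ∧ Arc g c d ∧ Arc g d a

/-- integer payoffs of the first player -/
def m1 : Fin 4 → Fin 5 → ℕ :=
  ![![3, 0, 3, 2, 1], ![1, 1, 0, 3, 2], ![0, 3, 2, 1, 0], ![2, 2, 1, 0, 3]]

/-- integer payoffs of the second player -/
def m2 : Fin 4 → Fin 5 → ℕ :=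
  ![![1, 2, 3, 4, 0], ![0, 1, 2, 3, 4], ![2, 3, 4, 0, 1], ![3, 4, 0, 1, 2]]

/-- The game. -/
def game : Game (Fin 4) (Fin 5) where
  u1 := fun s t => (m1 s t : ℝ)
  u2 := fun s t => (m2 s t : ℝ)

/-- decidable version of the arcs -/
def arcB (p q : Fin 4 × Fin 5) : Bool :=
  (p.1 != q.1 && p.2 == q.2 && Nat.blt (m1 p.1 p.2) (m1 q.1 q.2)) ||
  (p.1 == q.1 && p.2 != q.2 && Nat.blt (m2 p.1 p.2) (m2 q.1 q.2))

lemma arc_iff (p q : Fin 4 × Fin 5) : Arc game p q ↔ arcB p q = true := by
  unfold Arc arcB game
  simp only [Nat.cast_lt, Bool.or_eq_true, Bool.and_eq_true, bne_iff_ne, ne_eq, beq_iff_eq,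
    Nat.blt_eq, and_assoc]

/-- a closed walk through all profiles -/
def walk : List (Fin 4 × Fin 5) :=
  [(0, 0), (0, 1), (3, 1), (2, 1), (2, 2), (0, 2), (0, 3), (1, 3), (1, 4), (3, 4), (3, 0),
   (0, 0), (0, 1), (1, 1), (1, 2), (3, 2), (3, 3), (2, 3), (2, 0), (1, 0), (1, 2), (3, 2),
   (3, 3), (2, 3), (2, 4), (0, 4), (0, 0)]

lemma reach_walk : ∀ (l : List (Fin 4 × Fin 5)) (x : Fin 4 × Fin 5),
    List.IsChain (fun a b => arcB a b = true) (x :: l) → ∀ y ∈ x :: l,
      Relation.ReflTransGen (Arc game) x y := by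
  intro l
  induction l with
  | nil =>
    intro x _ y hy
    rw [List.mem_singleton] at hy
    rw [hy]
  | cons z l ih =>
    intro x h y hy
    rw [List.isChain_cons_cons] at h
    rcases List.mem_cons.1 hy with h1 | h1
    · rw [h1]
    · exact Relation.ReflTransGen.head ((arc_iff x z).2 h.1) (ih z h.2 y h1)

lemma reach_walk' : ∀ (l : List (Fin 4 × Fin 5)) (x : Fin 4 × Fin 5),
    List.IsChain (fun a b => arcB a b = true) (x :: l) → ∀ y ∈ x :: l,
      Relation.ReflTransGen (Arc game) y ((x :: l).getLast (List.cons_ne_nil _ _)) := by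
  intro l
  induction l with
  | nil =>
    intro x _ y hy
    rw [List.mem_singleton] at hy
    rw [hy]
    exact Relation.ReflTransGen.refl
  | cons z l ih =>
    intro x h y hy
    rw [List.isChain_cons_cons] at h
    rw [List.getLast_cons (List.cons_ne_nil _ _)]
    rcases List.mem_cons.1 hy with h1 | h1
    · rw [h1]
      exact Relation.ReflTransGen.head ((arc_iff x z).2 h.1) (ih z h.2 z List.mem_cons_self)
    · exact ih z h.2 y h1

lemma chain_walk : List.IsChain (fun a b => arcB a b = true) walk := by decide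

lemma mem_walk : ∀ p : Fin 4 × Fin 5, p ∈ walk := by decide

lemma strong : StronglyConnected game := by
  intro p q
  have h1 := reach_walk' _ _ chain_walk p (mem_walk p)
  have h2 := reach_walk _ _ chain_walk q (mem_walk q)
  exact Relation.ReflTransGen.trans h1 h2

lemma no_cycle_aux : ∀ a b : Fin 4 × Fin 5, arcB a b = true → ∀ c, arcB b c = true →
    ∀ d, arcB c d = true → arcB d a = true → False := by
  decide +kernel

lemma strict_game : Strict game := by
  constructor
  · intro s s' t h h2
    have h3 : m1 s t = m1 s' t := Nat.cast_injective (R := ℝ) h2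
    clear h2
    revert s s' t
    decide
  · intro s t t' h h2
    have h3 : m2 s t = m2 s t' := Nat.cast_injective (R := ℝ) h2
    clear h2
    revert s t t'
    decide

/-- **Main result.** There is a strict two-player game with 4 and 5 strategies whose preference
graph is strongly connected and has no 4-cycle. -/
theorem result : ∃ g : Game (Fin 4) (Fin 5), Strict g ∧ StronglyConnected g ∧
    ¬ HasFourCycle g := by
  refine ⟨game, strict_game, strong, ?_⟩
  rintro ⟨a, b, c, d, -, -, -, -, -, -, h1, h2, h3, h4⟩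
  rw [arc_iff] at h1 h2 h3 h4
  exact no_cycle_aux a b h1 c h2 d h3 h4

end Pool.Agent.Results.MP_69f1cd_co.NoFourCycle
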